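import Mathlib
import Pool.Agent.helper79.JP.Defs

/-!
# JP project, module JK1: sums over tuples of moduli
-/

set_option autoImplicit false

open Finset
open Pool.Agent.helper7.OC

namespace Pool.Agent.helper79.JP

theorem JK1_biUnion {ι α : Type*} [DecidableEq α] (s : Finset ι) (t : ι → Finset α) (f : α → ℝ)
    (hf : ∀ x, 0 ≤ f x) : ∑ x ∈ s.biUnion t, f x ≤ ∑ i ∈ s, ∑ x ∈ t i, f x := by
  classical
  induction s using Finset.induction_on with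
  | empty => simp
  | insert i s hi ih =>
    rw [biUnion_insert, sum_insert hi]
    have h1 := sum_union_inter (s₁ := t i) (s₂ := s.biUnion t) (f := f)
    have h0 : 0 ≤ ∑ x ∈ t i ∩ s.biUnion t, f x := sum_nonneg fun x _ => hf x
    linarith

/-- tuples with prescribed divisors -/
theorem JK1_base (ν : ℕ) {𝒟 𝓜 : Finset ℕ} {e X k a n C₁ Q : ℕ} {E Λ Cn ε : ℝ}
    (F : Fml 𝒟 𝓜 e X k a n C₁ Q E Λ Cn ε) (r : Fin ν → ℕ)
    (hr : ∀ j, Squarefree (r j)) (hr' : ∀ j, ∀ ℓ ∈ (r j).primeFactors, 2 ^ a < ℓ ∧ ℓ ∉ 𝒟) :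
    ∑ D ∈ (tup ν 𝓜).filter (fun D => ∀ j, r j ∣ D j), 1 / ∏ j, (D j : ℝ)
      ≤ ∏ j, (E * Λ ^ (r j).primeFactors.card / r j) := by
  have e1 : (tup ν 𝓜).filter (fun D => ∀ j, r j ∣ D j)
      = Fintype.piFinset (fun j => 𝓜.filter (fun D => r j ∣ D)) := by
    ext D
    simp only [tup, mem_filter, Fintype.mem_piFinset]
    constructor
    · rintro ⟨h1, h2⟩ j
      exact ⟨h1 j, h2 j⟩
    · intro h
      exact ⟨fun j => (h j).1, fun j => (h j).2⟩
  have e2 : ∀ D : Fin ν → ℕ, 1 / ∏ j, (D j : ℝ) = ∏ j, (1 / (D j : ℝ)) := fun D => by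
    rw [prod_div_distrib, prod_const_one]
  rw [e1, sum_congr rfl fun D _ => e2 D,
    ← prod_univ_sum (fun j => 𝓜.filter (fun D => r j ∣ D)) (fun _ D => 1 / (D : ℝ))]
  exact prod_le_prod (fun j _ => sum_nonneg fun D _ => by positivity)
    (fun j _ => F.sum_dvd (r j) (hr j) (hr' j))

theorem JK1_omega {r ℓ : ℕ} (hℓ : ℓ.Prime) (hr : r ≠ 0) (h : ¬ ℓ ∣ r) :
    (r * ℓ).primeFactors = insert ℓ r.primeFactors ∧
      (r * ℓ).primeFactors.card = r.primeFactors.card + 1 := by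
  have h1 : (r * ℓ).primeFactors = insert ℓ r.primeFactors := by
    rw [Nat.primeFactors_mul hr hℓ.ne_zero, hℓ.primeFactors, union_comm, singleton_union]
  refine ⟨h1, ?_⟩
  rw [h1, card_insert_of_notMem]
  intro h2
  exact h (Nat.dvd_of_mem_primeFactors h2)

theorem JK1_aux (ν : ℕ) {𝒟 𝓜 : Finset ℕ} {e X k a n C₁ Q : ℕ} {E Λ Cn ε : ℝ}
    (F : Fml 𝒟 𝓜 e X k a n C₁ Q E Λ Cn ε) (P : Finset ℕ) :
    ∀ (r : Fin ν → ℕ), (∀ j, Squarefree (r j)) →
      (∀ j, ∀ ℓ ∈ (r j).primeFactors, 2 ^ a < ℓ ∧ ℓ ∉ 𝒟) →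
      (∀ j, ∀ ℓ ∈ P, ¬ ℓ ∣ r j) → (∀ ℓ ∈ P, ℓ.Prime ∧ 2 ^ a < ℓ ∧ ℓ ∉ 𝒟) →
      ∑ D ∈ (tup ν 𝓜).filter (fun D => (∀ j, r j ∣ D j) ∧ ∀ ℓ ∈ P, ℓ ∣ ∏ j, D j),
        1 / ∏ j, (D j : ℝ)
      ≤ (∏ j, (E * Λ ^ (r j).primeFactors.card / r j)) * ∏ ℓ ∈ P, (ν * Λ / (ℓ : ℝ)) := by
  induction P using Finset.induction_on with
  | empty =>
    intro r hr hr' _ _
    rw [prod_empty, mul_one]
    refine le_trans (le_of_eq ?_) (JK1_base ν F r hr hr')
    refine sum_congr ?_ fun _ _ => rfl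
    ext D
    simp
  | insert p P hp ih =>
    intro r hr hr' hrP hP
    have hpp := (hP p (mem_insert_self p P)).1
    have hpok := (hP p (mem_insert_self p P)).2
    -- the new vectors
    let R : Fin ν → Fin ν → ℕ := fun j => Function.update r j (r j * p)
    have hR : ∀ j, R j j = r j * p := fun j => Function.update_self ..
    have hR' : ∀ j i, i ≠ j → R j i = r i := fun j i h => Function.update_of_ne h ..
    have hnd : ∀ j, ¬ p ∣ r j := fun j => hrP j p (mem_insert_self p P)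
    have hr0 : ∀ j, r j ≠ 0 := fun j => (hr j).ne_zero
    have hsub : (tup ν 𝓜).filter
        (fun D => (∀ j, r j ∣ D j) ∧ ∀ ℓ ∈ insert p P, ℓ ∣ ∏ j, D j) ⊆
        univ.biUnion (fun j : Fin ν => (tup ν 𝓜).filter
          (fun D => (∀ i, R j i ∣ D i) ∧ ∀ ℓ ∈ P, ℓ ∣ ∏ j, D j)) := by
      intro D hD
      obtain ⟨h1, h2, h3⟩ := mem_filter.1 hD
      obtain ⟨j, _, hj⟩ := (hpp.prime.dvd_finsetProd_iff _).1 (h3 p (mem_insert_self p P))
      refine mem_biUnion.2 ⟨j, mem_univ j, mem_filter.2 ⟨h1, ?_, fun ℓ hℓ =>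
        h3 ℓ (mem_insert_of_mem hℓ)⟩⟩
      intro i
      by_cases hij : i = j
      · rw [hij, hR j]
        exact ((hpp.coprime_iff_not_dvd.2 (hnd j)).symm).mul_dvd_of_dvd_of_dvd (h2 j) hj
      · rw [hR' j i hij]
        exact h2 i
    have hnn : ∀ D : Fin ν → ℕ, 0 ≤ 1 / ∏ j, (D j : ℝ) := fun D => by positivity
    calc ∑ D ∈ (tup ν 𝓜).filter
          (fun D => (∀ j, r j ∣ D j) ∧ ∀ ℓ ∈ insert p P, ℓ ∣ ∏ j, D j), 1 / ∏ j, (D j : ℝ)
        ≤ ∑ D ∈ univ.biUnion (fun j : Fin ν => (tup ν 𝓜).filter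
          (fun D => (∀ i, R j i ∣ D i) ∧ ∀ ℓ ∈ P, ℓ ∣ ∏ j, D j)), 1 / ∏ j, (D j : ℝ) :=
          sum_le_sum_of_subset_of_nonneg hsub fun D _ _ => hnn D
      _ ≤ ∑ j : Fin ν, ∑ D ∈ (tup ν 𝓜).filter
          (fun D => (∀ i, R j i ∣ D i) ∧ ∀ ℓ ∈ P, ℓ ∣ ∏ j, D j), 1 / ∏ j, (D j : ℝ) :=
          JK1_biUnion _ _ _ fun D => hnn D
      _ ≤ ∑ j : Fin ν, (Λ / p) * ((∏ j, (E * Λ ^ (r j).primeFactors.card / r j)) *
          ∏ ℓ ∈ P, (ν * Λ / (ℓ : ℝ))) := by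
          refine sum_le_sum fun j _ => ?_
          refine (ih (R j) ?_ ?_ ?_ ?_).trans (le_of_eq ?_)
          · intro i
            by_cases hij : i = j
            · rw [hij, hR j]
              exact (Nat.squarefree_mul ((hpp.coprime_iff_not_dvd.2 (hnd j)).symm)).2
                ⟨hr j, hpp.prime.squarefree⟩
            · rw [hR' j i hij]
              exact hr i
          · intro i ℓ hℓ
            by_cases hij : i = j
            · rw [hij, hR j, (JK1_omega hpp (hr0 j) (hnd j)).1] at hℓ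
              rcases mem_insert.1 hℓ with h | h
              · rw [h]
                exact hpok
              · exact hr' j ℓ h
            · rw [hR' j i hij] at hℓ
              exact hr' i ℓ hℓ
          · intro i ℓ hℓ h
            have hℓp : ℓ ≠ p := fun h => hp (h ▸ hℓ)
            have hℓ' := (hP ℓ (mem_insert_of_mem hℓ)).1
            by_cases hij : i = j
            · rw [hij, hR j] at h
              rcases hℓ'.dvd_mul.1 h with h | h
              · exact hrP j ℓ (mem_insert_of_mem hℓ) h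
              · exact hℓp ((Nat.prime_dvd_prime_iff_eq hℓ' hpp).1 h)
            · rw [hR' j i hij] at h
              exact hrP i ℓ (mem_insert_of_mem hℓ) h
          · exact fun ℓ hℓ => hP ℓ (mem_insert_of_mem hℓ)
          · rw [← mul_assoc]
            congr 1
            rw [← mul_prod_erase univ (fun i => E * Λ ^ (R j i).primeFactors.card / (R j i : ℝ))
              (mem_univ j),
              ← mul_prod_erase univ (fun i => E * Λ ^ (r i).primeFactors.card / (r i : ℝ))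
              (mem_univ j), ← mul_assoc]
            congr 1
            · rw [hR j, (JK1_omega hpp (hr0 j) (hnd j)).2, pow_succ, Nat.cast_mul]
              ring
            · refine prod_congr rfl fun i hi => ?_
              rw [hR' j i (ne_of_mem_erase hi)]
      _ = (∏ j, (E * Λ ^ (r j).primeFactors.card / r j)) *
          ∏ ℓ ∈ insert p P, (ν * Λ / (ℓ : ℝ)) := by
          rw [sum_const, card_univ, Fintype.card_fin, nsmul_eq_mul, prod_insert hp]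
          ring

theorem JK1_final (ν : ℕ) {𝒟 𝓜 : Finset ℕ} {e X k a n C₁ Q : ℕ} {E Λ Cn ε : ℝ}
    (F : Fml 𝒟 𝓜 e X k a n C₁ Q E Λ Cn ε) (q : ℕ) (hq : Squarefree q)
    (hq' : ∀ ℓ ∈ q.primeFactors, 2 ^ a < ℓ ∧ ℓ ∉ 𝒟) :
    ∑ D ∈ (tup ν 𝓜).filter (fun D => q ∣ ∏ j, D j), 1 / ∏ j, (D j : ℝ)
      ≤ E ^ ν * (ν * Λ) ^ q.primeFactors.card / q := by
  have h1 := JK1_aux ν F q.primeFactors (fun _ => 1) (fun _ => squarefree_one)
    (fun _ ℓ hℓ => by simp at hℓ)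
    (fun _ ℓ hℓ h => (Nat.prime_of_mem_primeFactors hℓ).one_lt.ne' (Nat.dvd_one.1 h))
    (fun ℓ hℓ => ⟨Nat.prime_of_mem_primeFactors hℓ, hq' ℓ hℓ⟩)
  have h3 : ∏ ℓ ∈ q.primeFactors, (ℓ : ℝ) = q := by
    rw [← Nat.cast_prod, Nat.prod_primeFactors_of_squarefree hq]
  have h5 : ∏ ℓ ∈ q.primeFactors, (ν * Λ / (ℓ : ℝ)) = (ν * Λ) ^ q.primeFactors.card / q := by
    rw [prod_div_distrib, prod_const, h3]
  have h6 : (∏ _j : Fin ν, (E * Λ ^ (1 : ℕ).primeFactors.card / ((1 : ℕ) : ℝ))) = E ^ ν := by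
    simp
  have h7 : (∏ _j : Fin ν, (E * Λ ^ (1 : ℕ).primeFactors.card / ((1 : ℕ) : ℝ)))
      * ∏ ℓ ∈ q.primeFactors, (ν * Λ / (ℓ : ℝ)) = E ^ ν * (ν * Λ) ^ q.primeFactors.card / q := by
    rw [h6, h5, mul_div_assoc]
  rw [← h7]
  refine le_trans ?_ h1
  refine sum_le_sum_of_subset_of_nonneg ?_ fun D _ _ => by positivity
  intro D hD
  obtain ⟨h3, h4⟩ := mem_filter.1 hD
  exact mem_filter.2 ⟨h3, fun j => one_dvd _, fun ℓ hℓ =>
    (Nat.dvd_of_mem_primeFactors hℓ).trans h4⟩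

section
open Classical

theorem sum_dvd_tup (ν : ℕ) {𝒟 𝓜 : Finset ℕ} {e X k a n C₁ Q : ℕ} {E Λ Cn ε : ℝ}
    (F : Fml 𝒟 𝓜 e X k a n C₁ Q E Λ Cn ε) (hΛ : 0 ≤ Λ) (q : ℕ) (hq : Squarefree q)
    (hq' : ∀ ℓ ∈ q.primeFactors, 2 ^ a < ℓ ∧ ℓ ∉ 𝒟) :
    ∑ D ∈ (tup ν 𝓜).filter (fun D => q ∣ ∏ j, D j), 1 / ∏ j, (D j : ℝ)
      ≤ E ^ ν * (ν * Λ) ^ q.primeFactors.card / q := by
  convert JK1_final ν F q hq hq'

end

end Pool.Agent.helper79.JP
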